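import Pool.Agent.Stv.ThmA
import Pool.Agent.HyZ.Sj

/-!
# Package Stv-Final: the theorem of Stepanov

Complete proofs.

`param`: let `n = deg F`, `q = 2 m + 1 ≥ q₀ = 100 (n + 1)²`, `t = ⌊√q / 2⌋`, `l = 2 t`, `J = t + n`,
`d = (q - n) / 2`. Then `2 d + n ≤ q`, `l ≤ q` and
`∑_{k < l} (d + k (n-1) + J) = l (d + J) + (n-1) l (l-1)/2 < l (d + J) + (n-1) l²/2`; `2 J d - l d = 2 n d`
`≥ n (q - n - 1)`; `l J + (n-1) l²/2 = 2 t (t + n) + 2 (n-1) t² = 2 n t² + 2 n t ≤ n q/2 + n √q`
(`4 t² ≤ q`), which is less than `n (q - n - 1)`. So by `thmA`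
`2 t N ≤ 2 t n + q/2 + n q/2 + q (t + n - 1)`, so `N ≤ q/2 + n + q (3 n - 1)/(4 t)`, and with
`t ≥ √q/2 - 1 ≥ √q/4`: `N ≤ q/2 + n + (3 n - 1) √q ≤ q/2 + 4 n √q`; in the statement `2 N ≤ q + 8 n b`
with `b = Nat.sqrt q + 1`.

`stepanov`: if `q ≥ q₀` some `a` has `F(a) ≠ 0`; replace `F` by `F(X + a)` (`taylor a F`: squarefree of the
same degree, the same `qs`). `qc (F x) = 1` iff `F(x)^m = 1`, `qc (F x) = -1` iff `F(x)^m = -1`
(`FiniteField.isSquare_iff`, `FiniteField.pow_dichotomy`); with `N₊`, `N₋` these numbers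
`qs F = N₊ - N₋` and `N₊ + N₋ ≥ q - n`, so `|qs F| ≤ 8 n b + n`. For `q < q₀`: `|qs F| ≤ q`. In both cases
`(qs F)² ≤ B q` with `B = 400 (n + 1)²`, say (any `B` depending only on the bound for `n`; take the
maximum over the possible degrees).
-/

set_option autoImplicit false

noncomputable section

namespace Pool.Agent.Stv

open Polynomial Pool.Agent.HyZ
open scoped Classical

private theorem arith {n s t q m d N : ℕ} (hn : 1 ≤ n) (hs : 10 * (n + 1) ≤ s)
    (hs2 : q ≤ s * s + s + s) (ht2 : s ≤ 2 * t + 1)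
    (hq : q = 2 * m + 1) (hd : 2 * d + n ≤ q)
    (h : 2 * t * N ≤ 2 * t * n + d + n * m + q * (t + n - 1)) :
    2 * N ≤ q + 8 * n * (s + 1) := by
  by_contra hcon
  push Not at hcon
  obtain ⟨k, rfl⟩ : ∃ k, n = k + 1 := ⟨n - 1, by omega⟩
  have h1 : t + (k + 1) - 1 = t + k := by omega
  rw [h1] at h
  zify at *
  have ht0 : (0 : ℤ) ≤ t := by positivity
  have hk0 : (0 : ℤ) ≤ k := by positivity
  -- `2 t (q + 8 n (s + 1) + 1) ≤ 4 t N`
  have h2 : 2 * (t : ℤ) * (q + 8 * (k + 1) * (s + 1) + 1) ≤ 2 * t * (2 * N) :=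
    mul_le_mul_of_nonneg_left (by linarith) (by linarith)
  have h3 : 2 * ((k : ℤ) + 1) * m = (k + 1) * (q - 1) := by
    rw [hq]
    ring
  have h4 : 16 * (t : ℤ) * (k + 1) * s + 12 * t * (k + 1) + 2 * t + 2 * (k + 1) ≤
      q * (3 * k + 2) := by
    nlinarith [h, h2, h3, hd]
  have h5 : (q : ℤ) * (3 * k + 2) ≤ (s * s + s + s) * (3 * k + 2) :=
    mul_le_mul_of_nonneg_right hs2 (by linarith)
  have hs0 : (0 : ℤ) ≤ s := by positivity
  have h6 : 8 * ((s : ℤ) - 1) * (k + 1) * s ≤ 16 * t * (k + 1) * s := by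
    have h7 : (s : ℤ) - 1 ≤ 2 * t := by linarith
    have h8 : ((s : ℤ) - 1) * ((k + 1) * s) ≤ 2 * t * ((k + 1) * s) :=
      mul_le_mul_of_nonneg_right h7 (by positivity)
    nlinarith [h8]
  have h9 : (0 : ℤ) ≤ 12 * t * (k + 1) := by positivity
  have h10 : 8 * ((s : ℤ) - 1) * (k + 1) * s ≤ (s * s + s + s) * (3 * k + 2) := by linarith
  have h11 : (s * s + s + s) * (3 * (k : ℤ) + 2) ≤ (s * s + s + s) * (3 * (k + 1)) :=
    mul_le_mul_of_nonneg_left (by linarith) (by positivity)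
  have h12 : (s : ℤ) * (k + 1) * (5 * s - 14) ≤ 0 := by nlinarith [h10, h11]
  have h13 : (0 : ℤ) < s * (k + 1) * (5 * s - 14) := by
    have h14 : (0 : ℤ) < s := by linarith
    have h15 : (0 : ℤ) < 5 * s - 14 := by linarith
    positivity
  linarith

private theorem sum_lt {n s t q d : ℕ} (hn : 1 ≤ n) (hs : 10 * (n + 1) ≤ s) (hs1 : s * s ≤ q)
    (ht : 2 * t ≤ s) (hd : q ≤ 2 * d + n + 1) :
    ∑ k ∈ Finset.range (2 * t), (d + k * (n - 1) + (t + n)) < 2 * (t + n) * d := by
  obtain ⟨k, rfl⟩ : ∃ k, n = k + 1 := ⟨n - 1, by omega⟩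
  have h1 : ∑ i ∈ Finset.range (2 * t), (d + i * (k + 1 - 1) + (t + (k + 1))) =
      2 * t * (d + (t + (k + 1))) + k * ∑ i ∈ Finset.range (2 * t), i := by
    rw [Finset.mul_sum]
    have h2 : ∀ i ∈ Finset.range (2 * t), d + i * (k + 1 - 1) + (t + (k + 1)) =
        (d + (t + (k + 1))) + k * i := by
      intro i _
      rw [Nat.add_sub_cancel]
      ring
    rw [Finset.sum_congr rfl h2, Finset.sum_add_distrib, Finset.sum_const, Finset.card_range,
      smul_eq_mul]
  have h3 : 2 * ∑ i ∈ Finset.range (2 * t), i ≤ 2 * t * (2 * t) := by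
    have h4 := Finset.sum_range_id_mul_two (2 * t)
    have h5 : 2 * t * (2 * t - 1) ≤ 2 * t * (2 * t) := Nat.mul_le_mul_left _ (Nat.sub_le _ _)
    omega
  rw [h1]
  set S := ∑ i ∈ Finset.range (2 * t), i with hS
  have h6 : k * (2 * S) ≤ k * (2 * t * (2 * t)) := Nat.mul_le_mul_left _ h3
  have h7 : 2 * t * (2 * t) ≤ s * s := Nat.mul_le_mul ht ht
  -- `2 (2 t ^ 2 + 2 t) < 2 (q - n - 1)`
  have h8 : 2 * t * (2 * t) + 4 * t + 2 * (k + 2) < 2 * q := by nlinarith
  have h9 : 2 * t * (2 * t) + 4 * t < 2 * (2 * d) := by omega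
  have h10 : (k + 1) * (2 * t * (2 * t) + 4 * t) < (k + 1) * (2 * (2 * d)) :=
    Nat.mul_lt_mul_of_pos_left h9 (Nat.succ_pos k)
  nlinarith [h6, h10]

theorem param {K : Type} [Field K] [Finite K] {F : K[X]} (hF : Squarefree F)
    (hn : 1 ≤ F.natDegree) (h₀ : F.eval 0 ≠ 0) {m : ℕ} (ε : K) (hq : Nat.card K = 2 * m + 1)
    (hq₀ : 100 * (F.natDegree + 1) ^ 2 ≤ Nat.card K) :
    2 * Nat.card {x : K // F.eval x ^ m = ε} ≤
      Nat.card K + 8 * F.natDegree * (Nat.sqrt (Nat.card K) + 1) := by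
  set n := F.natDegree with hn'
  set q := Nat.card K with hq'
  set s := Nat.sqrt q with hs'
  have hs1 : s * s ≤ q := Nat.sqrt_le q
  have hs2 : q ≤ s * s + s + s := Nat.sqrt_le_add q
  have hs : 10 * (n + 1) ≤ s := by
    rw [hs', Nat.le_sqrt]
    calc 10 * (n + 1) * (10 * (n + 1)) = 100 * (n + 1) ^ 2 := by ring
      _ ≤ q := hq₀
  set t := s / 2 with ht'
  have ht : 2 * t ≤ s := Nat.mul_div_le s 2
  have ht2 : s ≤ 2 * t + 1 := by omega
  have hss : s ≤ s * s := Nat.le_mul_self s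
  have h1 := thmA (l := 2 * t) (J := t + n) (m := m) (d := (q - n) / 2) hF hn h₀ ε hq
    (by omega) (by omega) (sum_lt hn hs hs1 ht (by omega))
  exact arith hn hs hs2 ht2 hq (by omega) h1

private theorem abs_qc {K : Type} [Field K] (a : K) : |qc a| ≤ 1 := by
  unfold qc
  split_ifs <;> simp

private theorem squarefree_taylor {K : Type} [Field K] {F : K[X]} (hF : Squarefree F) (a : K) :
    Squarefree (taylor a F) := by
  intro x hx
  have h1 : taylorEquiv (-a) x * taylorEquiv (-a) x ∣ F := by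
    have h2 := map_dvd (taylorEquiv (-a)) hx
    rw [map_mul] at h2
    have h3 : taylorEquiv (-a) (taylor a F) = F := by
      change taylor (-a) (taylor a F) = F
      rw [taylor_taylor, neg_add_cancel, taylor_zero]
    rwa [h3] at h2
  exact (MulEquiv.isUnit_map (taylorEquiv (-a))).1 (hF _ h1)

private theorem qc_eq {K : Type} [Field K] [Fintype K] (h2 : (2 : K) ≠ 0) {m : ℕ}
    (hm : Nat.card K = 2 * m + 1) (a : K) :
    qc a = (if a ^ m = 1 then 1 else 0) - (if a ^ m = -1 then 1 else 0) ∧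
      ((if a ^ m = 1 then 1 else 0) + (if a ^ m = -1 then 1 else 0) +
        (if a = 0 then 1 else 0) : ℤ) = 1 := by
  have hchar : ringChar K ≠ 2 := by
    intro h
    apply h2
    have h3 := ringChar.Nat.cast_ringChar (R := K)
    rw [h] at h3
    exact_mod_cast h3
  have h11 : (1 : K) ≠ -1 := by
    intro h
    apply h2
    have : (2 : K) = 1 + 1 := by norm_num
    rw [this]
    nth_rewrite 1 [h]
    rw [neg_add_cancel]
  have hm0 : m ≠ 0 := by
    rintro rfl
    have h3 : Nat.card K = 1 := by omega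
    have h4 := Finite.one_lt_card (α := K)
    omega
  have hcard : Fintype.card K / 2 = m := by
    rw [← Nat.card_eq_fintype_card]
    omega
  by_cases ha : a = 0
  · subst ha
    rw [zero_pow hm0]
    constructor
    · rw [qc, if_pos rfl, if_neg zero_ne_one, if_neg]
      · rfl
      · intro h
        exact one_ne_zero (neg_eq_zero.1 h.symm)
    · rw [if_neg zero_ne_one, if_neg, if_pos rfl]
      · rfl
      · intro h
        exact one_ne_zero (neg_eq_zero.1 h.symm)
  · have h3 := FiniteField.isSquare_iff hchar ha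
    have h4 := FiniteField.pow_dichotomy hchar ha
    rw [hcard] at h3 h4
    rcases h4 with h4 | h4
    · constructor
      · rw [qc, if_neg ha, if_pos (h3.2 h4), if_pos h4, if_neg]
        · rfl
        · rw [h4]
          exact h11
      · rw [if_pos h4, if_neg, if_neg ha]
        · rfl
        · rw [h4]
          exact h11
    · have h5 : ¬ IsSquare a := by
        rw [h3, h4]
        exact h11.symm
      constructor
      · rw [qc, if_neg ha, if_neg h5, if_neg, if_pos h4]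
        · rfl
        · rw [h4]
          exact h11.symm
      · rw [if_neg, if_pos h4, if_neg ha]
        · rfl
        · rw [h4]
          exact h11.symm

private theorem qs_taylor {K : Type} [Field K] [Fintype K] (F : K[X]) (a : K) :
    qs (taylor a F) = qs F := by
  rw [qs, qs, finsum_eq_sum_of_fintype, finsum_eq_sum_of_fintype]
  exact Fintype.sum_equiv (Equiv.addRight a) _ _ fun x => by
    rw [taylor_eval, Equiv.coe_addRight]

private theorem card_eq {K : Type} [Fintype K] (p : K → Prop) :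
    ((Nat.card {x : K // p x} : ℕ) : ℤ) = ∑ x : K, if p x then (1 : ℤ) else 0 := by
  rw [Nat.card_eq_fintype_card, Fintype.card_subtype, Finset.sum_boole]

private theorem big {n : ℕ} {K : Type} [Field K] [Fintype K] (h2 : (2 : K) ≠ 0) {F : K[X]}
    (hF : Squarefree F) (hn1 : 1 ≤ F.natDegree) (hn : F.natDegree ≤ n)
    (hq : 100 * (n + 1) ^ 2 ≤ Nat.card K) :
    qs F ^ 2 ≤ ((400 * (n + 1) ^ 2 : ℕ) : ℤ) * Nat.card K := by
  have hF0 : F ≠ 0 := hF.ne_zero
  -- the number of elements is odd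
  have hchar : ringChar K ≠ 2 := by
    intro h
    apply h2
    have h3 := ringChar.Nat.cast_ringChar (R := K)
    rw [h] at h3
    exact_mod_cast h3
  obtain ⟨m, hm⟩ : ∃ m, Nat.card K = 2 * m + 1 := by
    have h3 := FiniteField.odd_card_of_char_ne_two hchar
    rw [← Nat.card_eq_fintype_card] at h3
    exact ⟨Nat.card K / 2, by omega⟩
  have hnq : n < Nat.card K := by nlinarith
  have hroots : ∀ G : K[X], G ≠ 0 → (Finset.univ.filter fun x : K => G.eval x = 0).card ≤
      G.natDegree := by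
    intro G hG
    have h3 : (Finset.univ.filter fun x : K => G.eval x = 0) ⊆ G.roots.toFinset := by
      intro x hx
      rw [Multiset.mem_toFinset, mem_roots hG]
      exact (Finset.mem_filter.1 hx).2
    exact (Finset.card_le_card h3).trans ((Multiset.toFinset_card_le _).trans (card_roots' G))
  obtain ⟨a, ha⟩ : ∃ a : K, F.eval a ≠ 0 := by
    by_contra hcon
    push Not at hcon
    have h3 := hroots F hF0
    rw [Finset.filter_true_of_mem fun x _ => hcon x, Finset.card_univ,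
      ← Nat.card_eq_fintype_card] at h3
    omega
  set G := taylor a F with hG
  have hGs : Squarefree G := squarefree_taylor hF a
  have hGd : G.natDegree = F.natDegree := natDegree_taylor F a
  have hG0 : G.eval 0 ≠ 0 := by
    rw [hG, taylor_eval, zero_add]
    exact ha
  have hqG : 100 * (G.natDegree + 1) ^ 2 ≤ Nat.card K := by
    rw [hGd]
    refine le_trans (Nat.mul_le_mul_left _ (Nat.pow_le_pow_left (by omega) 2)) hq
  have h3 := param hGs (by rw [hGd]; exact hn1) hG0 (m := m) 1 hm hqG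
  have h4 := param hGs (by rw [hGd]; exact hn1) hG0 (m := m) (-1) hm hqG
  set s := Nat.sqrt (Nat.card K) with hs'
  have hs1 : s * s ≤ Nat.card K := Nat.sqrt_le _
  have hs : 10 * (n + 1) ≤ s := by
    rw [hs', Nat.le_sqrt]
    calc 10 * (n + 1) * (10 * (n + 1)) = 100 * (n + 1) ^ 2 := by ring
      _ ≤ _ := hq
  have h5 : qs F = (Nat.card {x : K // G.eval x ^ m = 1} : ℤ) -
      Nat.card {x : K // G.eval x ^ m = -1} := by
    rw [← qs_taylor F a, ← hG, qs, finsum_eq_sum_of_fintype, card_eq, card_eq,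
      ← Finset.sum_sub_distrib]
    exact Finset.sum_congr rfl fun x _ => (qc_eq h2 hm _).1
  have h6 : (Nat.card {x : K // G.eval x ^ m = 1} : ℤ) +
      Nat.card {x : K // G.eval x ^ m = -1} +
      (Finset.univ.filter fun x : K => G.eval x = 0).card = Nat.card K := by
    rw [card_eq, card_eq, ← Finset.sum_boole, ← Finset.sum_add_distrib,
      ← Finset.sum_add_distrib, Finset.sum_congr rfl fun x _ => (qc_eq h2 hm (G.eval x)).2]
    rw [Nat.card_eq_fintype_card]
    simp
  have h7 := hroots G hGs.ne_zero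
  rw [hGd] at h3 h4 h7
  set N₁ := Nat.card {x : K // G.eval x ^ m = 1}
  set N₂ := Nat.card {x : K // G.eval x ^ m = -1}
  set N₀ := (Finset.univ.filter fun x : K => G.eval x = 0).card
  set q := Nat.card K
  have h8 : 8 * F.natDegree * (s + 1) ≤ 8 * n * (s + 1) :=
    Nat.mul_le_mul_right _ (Nat.mul_le_mul_left _ hn)
  have h9 : |qs F| ≤ ((20 * (n + 1) * s : ℕ) : ℤ) := by
    rw [h5]
    have h10 : 8 * n * (s + 1) + n ≤ 20 * (n + 1) * s := by nlinarith
    zify at *
    rw [abs_le]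
    constructor <;> linarith
  calc qs F ^ 2 = |qs F| ^ 2 := (sq_abs _).symm
    _ ≤ ((20 * (n + 1) * s : ℕ) : ℤ) ^ 2 := pow_le_pow_left₀ (abs_nonneg _) h9 2
    _ = ((400 * (n + 1) ^ 2 : ℕ) : ℤ) * ((s * s : ℕ) : ℤ) := by
      push_cast
      ring
    _ ≤ ((400 * (n + 1) ^ 2 : ℕ) : ℤ) * q := by
      refine mul_le_mul_of_nonneg_left ?_ (by positivity)
      exact_mod_cast hs1

theorem stepanov (n : ℕ) : ∃ B : ℕ, ∀ (K : Type) [Field K] [Finite K], (2 : K) ≠ 0 →
    ∀ F : K[X], Squarefree F → 1 ≤ F.natDegree → F.natDegree ≤ n →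
      qs F ^ 2 ≤ (B : ℤ) * Nat.card K := by
  refine ⟨400 * (n + 1) ^ 2, fun K _ _ h2 F hF hn1 hn => ?_⟩
  have _ : Fintype K := Fintype.ofFinite K
  by_cases hq : Nat.card K < 100 * (n + 1) ^ 2
  · have h1 : |qs F| ≤ (Nat.card K : ℤ) := by
      rw [qs, finsum_eq_sum_of_fintype, Nat.card_eq_fintype_card]
      refine (Finset.abs_sum_le_sum_abs _ _).trans ?_
      calc ∑ x : K, |qc (F.eval x)| ≤ ∑ _x : K, (1 : ℤ) := Finset.sum_le_sum fun x _ => abs_qc _
        _ = _ := by simp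
    calc qs F ^ 2 = |qs F| ^ 2 := (sq_abs _).symm
      _ ≤ (Nat.card K : ℤ) ^ 2 := pow_le_pow_left₀ (abs_nonneg _) h1 2
      _ = (Nat.card K : ℤ) * Nat.card K := sq _
      _ ≤ ((400 * (n + 1) ^ 2 : ℕ) : ℤ) * Nat.card K := by
        refine mul_le_mul_of_nonneg_right ?_ (by positivity)
        exact_mod_cast hq.le.trans (Nat.mul_le_mul_right _ (by norm_num))
  · push Not at hq
    exact big h2 hF hn1 hn hq

end Pool.Agent.Stv
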