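import Mathlib

/-!
# The theorem of Stepanov for `y ^ 2 = F(x)`: definitions

Project HYP (`MP_a56640_lc`). `K` is a finite field with `q` elements, `F` a polynomial over `K`.

* `UU F l k r`: the polynomial with `F ^ (l - k) UU = D_k (F ^ l r)`, `D_k` the Hasse derivative;
* `Phi F l J m r s = F ^ l ∑_{j < J} (r_j + s_j F ^ m) X ^ (q j)`;
* `sig F l k m ε r s = ∑_{j < J} (UU F l k r_j + ε UU F (l + m) k s_j) X ^ j`.
-/

set_option autoImplicit false

noncomputable section

namespace Pool.Agent.Stv

open Polynomial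
open scoped Classical

variable {K : Type} [Field K]

/-- the polynomial with `F ^ (l - k) UU = D_k (F ^ l r)` -/
def UU (F : K[X]) (l k : ℕ) (r : K[X]) : K[X] := hasseDeriv k (F ^ l * r) / F ^ (l - k)

/-- the auxiliary polynomial; `q` is the number of the elements of `K` -/
def Phi (F : K[X]) (q l J m : ℕ) (r s : Fin J → K[X]) : K[X] :=
  F ^ l * ∑ j : Fin J, (r j + s j * F ^ m) * X ^ (q * (j : ℕ))

/-- the polynomial which must vanish -/
def sig (F : K[X]) (l k m J : ℕ) (ε : K) (r s : Fin J → K[X]) : K[X] :=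
  ∑ j : Fin J, (UU F l k (r j) + C ε * UU F (l + m) k (s j)) * X ^ (j : ℕ)

end Pool.Agent.Stv
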