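import Pool.Agent.Stv.Defs

/-!
# Package Stv-Hasse: Hasse derivatives of `F ^ l r`

Complete proofs.

* `pow_dvd`: induction on `l` for all `k ≤ l`, with `Polynomial.hasseDeriv_mul` for `F * (F ^ l
r)`: the
  summand `(i, j)`, `i + j = k`, is `D_i F * D_j (F ^ l r)`; for `i = 0` there is the factor `F`
(and
  `k ≤ l`, or `k = l + 1` where nothing is to prove), for `i ≥ 1` `j ≤ k - 1 ≤ l` and
  `l - j ≥ l + 1 - k`.
* `UU_mul`: exact division. `UU_add`, `UU_smul`: multiply by `F ^ (l - k) ≠ 0` and cancel.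
* `UU_deg`: if `D_k (F ^ l r) ≠ 0`: its degree is at most `l n + deg r - k`
  (`natDegree_hasseDeriv_le`), so the degree of `UU` is at most
  `l n + deg r - k - (l - k) n = deg r + k (n - 1)`.
* `hasse_X_pow`: `D_i (X ^ (q j)) = 0` for `0 < i < q`: the coefficient `C(q j, i)` is `0` in `K`:
it is
  the coefficient of `X ^ i` in `(1 + X)^(q j) = (1 + X^q)^j` (`add_pow_char_pow`, `q = p ^ a`).
* `hasse_mul_X_pow`: `hasseDeriv_mul` and `hasse_X_pow`.
* `mult`: `(X - C x)^l ∣ G` iff `X^l ∣ taylor x G`, whose coefficients are `eval x (hasseDeriv k G)`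
  (`taylor_coeff`, `X_sub_C_pow_dvd_iff`, `X_pow_dvd_iff`).
-/

set_option autoImplicit false

noncomputable section

namespace Pool.Agent.Stv

open Polynomial
open scoped Classical

variable {K : Type} [Field K]

theorem pow_dvd (F : K[X]) {l k : ℕ} (h : k ≤ l) (r : K[X]) :
    F ^ (l - k) ∣ hasseDeriv k (F ^ l * r) := by
  clear h
  induction l generalizing k with
  | zero => rw [Nat.zero_sub, pow_zero]; exact one_dvd _
  | succ l ih =>
    rw [pow_succ', mul_assoc, hasseDeriv_mul]
    refine Finset.dvd_sum fun ij hij => ?_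
    rw [Finset.HasAntidiagonal.mem_antidiagonal] at hij
    rcases Nat.eq_zero_or_pos ij.1 with h0 | h0
    · have h1 : ij.2 = k := by omega
      rw [h0, h1, hasseDeriv_zero']
      refine (pow_dvd_pow F (show l + 1 - k ≤ (l - k) + 1 by omega)).trans ?_
      rw [pow_succ']
      exact mul_dvd_mul_left F ih
    · refine Dvd.dvd.mul_left ?_ _
      exact (pow_dvd_pow F (show l + 1 - k ≤ l - ij.2 by omega)).trans ih

theorem UU_mul {F : K[X]} (hF : F ≠ 0) {l k : ℕ} (h : k ≤ l) (r : K[X]) :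
    F ^ (l - k) * UU F l k r = hasseDeriv k (F ^ l * r) :=
  EuclideanDomain.mul_div_cancel' (pow_ne_zero _ hF) (pow_dvd F h r)

theorem UU_add {F : K[X]} (hF : F ≠ 0) {l k : ℕ} (h : k ≤ l) (r r' : K[X]) :
    UU F l k (r + r') = UU F l k r + UU F l k r' := by
  refine mul_left_cancel₀ (pow_ne_zero (l - k) hF) ?_
  rw [mul_add, UU_mul hF h, UU_mul hF h, UU_mul hF h, mul_add, map_add]

theorem UU_smul {F : K[X]} (hF : F ≠ 0) {l k : ℕ} (h : k ≤ l) (c : K) (r : K[X]) :
    UU F l k (c • r) = c • UU F l k r := by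
  refine mul_left_cancel₀ (pow_ne_zero (l - k) hF) ?_
  rw [mul_smul_comm, UU_mul hF h, UU_mul hF h, mul_smul_comm, map_smul]

theorem UU_deg {F : K[X]} (hF : 1 ≤ F.natDegree) {l k : ℕ} (h : k ≤ l) {r : K[X]} {d : ℕ}
    (hr : r ∈ degreeLT K d) : UU F l k r ∈ degreeLT K (d + k * (F.natDegree - 1)) := by
  have hF0 : F ≠ 0 := by
    rintro rfl
    rw [natDegree_zero] at hF
    omega
  by_cases hU : UU F l k r = 0
  · rw [hU]
    exact Submodule.zero_mem _
  have hm := UU_mul hF0 h r
  have hD : hasseDeriv k (F ^ l * r) ≠ 0 := by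
    rw [← hm]
    exact mul_ne_zero (pow_ne_zero _ hF0) hU
  have hr0 : r ≠ 0 := by
    rintro rfl
    rw [mul_zero, map_zero] at hD
    exact hD rfl
  have hrd : r.natDegree < d := by
    rw [mem_degreeLT, degree_eq_natDegree hr0] at hr
    exact_mod_cast hr
  have h1 : k ≤ (F ^ l * r).natDegree := by
    by_contra hcon
    exact hD (hasseDeriv_eq_zero_of_lt_natDegree _ _ (by omega))
  have h2 := natDegree_hasseDeriv_le (F ^ l * r) k
  rw [← hm, natDegree_mul (pow_ne_zero _ hF0) hU, natDegree_pow,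
    natDegree_mul (pow_ne_zero _ hF0) hr0, natDegree_pow] at h2
  rw [natDegree_mul (pow_ne_zero _ hF0) hr0, natDegree_pow] at h1
  rw [mem_degreeLT, degree_eq_natDegree hU]
  have h3 : l * F.natDegree = (l - k) * F.natDegree + k * F.natDegree := by
    rw [← Nat.add_mul, Nat.sub_add_cancel h]
  have h4 : k * F.natDegree = k * (F.natDegree - 1) + k := by
    rw [← Nat.mul_succ, Nat.succ_eq_add_one, Nat.sub_add_cancel hF]
  have h5 : (UU F l k r).natDegree < d + k * (F.natDegree - 1) := by omega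
  exact_mod_cast h5

theorem hasse_X_pow [Finite K] {i : ℕ} (hi : 0 < i) (hq : i < Nat.card K) (j : ℕ) :
    hasseDeriv i (X ^ (Nat.card K * j) : K[X]) = 0 := by
  have := Fintype.ofFinite K
  have h1 : ((Nat.card K * j).choose i : K) = 0 := by
    rw [← coeff_X_add_one_pow K (Nat.card K * j) i, mul_comm, pow_mul, Nat.card_eq_fintype_card,
      ← FiniteField.expand_card, coeff_expand Fintype.card_pos]
    rw [if_neg]
    intro hdvd
    have := Nat.le_of_dvd hi hdvd
    rw [Nat.card_eq_fintype_card] at hq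
    omega
  rw [X_pow_eq_monomial, hasseDeriv_monomial, h1, zero_mul, monomial_zero_right]

theorem hasse_mul_X_pow [Finite K] {k : ℕ} (hq : k < Nat.card K) (G : K[X]) (j : ℕ) :
    hasseDeriv k (G * X ^ (Nat.card K * j)) = hasseDeriv k G * X ^ (Nat.card K * j) := by
  rw [hasseDeriv_mul, Finset.sum_eq_single (k, 0)]
  · rw [hasseDeriv_zero']
  · rintro ⟨a, b⟩ hab hne
    rw [Finset.HasAntidiagonal.mem_antidiagonal] at hab
    have hb : 0 < b := by
      rcases Nat.eq_zero_or_pos b with h0 | h0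
      · exfalso
        apply hne
        rw [h0] at hab ⊢
        rw [← hab]
        rfl
      · exact h0
    change hasseDeriv a G * hasseDeriv b (X ^ (Nat.card K * j)) = 0
    change a + b = k at hab
    rw [hasse_X_pow hb (by omega), mul_zero]
  · intro h
    exact absurd (Finset.HasAntidiagonal.mem_antidiagonal.2 (by rfl)) h

theorem mult {G : K[X]} {x : K} {l : ℕ} (h : ∀ k < l, (hasseDeriv k G).eval x = 0) :
    (X - C x) ^ l ∣ G := by
  rw [X_sub_C_pow_dvd_iff, ← taylor_apply, X_pow_dvd_iff]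
  intro d hd
  rw [taylor_coeff]
  exact h d hd

end Pool.Agent.Stv
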