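import Pool.Agent.Stv.Hasse

/-!
# Package Stv-Lin: linear algebra

Complete proof. The pairs `(r, s)` of families of polynomials in `degreeLT K d` are a vector space of
dimension `2 J d` (`finrank` of `degreeLT K d` is `d`: `degreeLTEquiv`). The map
`(r, s) ↦ (sig F l k m J ε r s)_{k < l}` is linear (`UU_add`, `UU_smul`, `k ≤ l ≤ l + m`) with values in
`∏_{k < l} degreeLT K (d + k (n - 1) + J)` (`UU_deg`; multiplication by `X^j`, `j < J`), of dimension
`∑_{k < l} (d + k (n - 1) + J) < 2 J d`, so it has a nonzero kernel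
(`LinearMap.exists_ne_zero_of_finrank_lt`-like: `LinearMap.ker_ne_bot_of_finrank_lt`).
-/

set_option autoImplicit false

noncomputable section

namespace Pool.Agent.Stv

open Polynomial
open scoped Classical

variable {K : Type} [Field K]

private theorem mulX {N j J : ℕ} (hj : j < J) {a : K[X]} (ha : a ∈ degreeLT K N) :
    a * X ^ j ∈ degreeLT K (N + J) := by
  by_cases h0 : a = 0
  · rw [h0, zero_mul]
    exact Submodule.zero_mem _
  · rw [mem_degreeLT] at ha ⊢
    rw [degree_mul, degree_X_pow, degree_eq_natDegree h0]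
    rw [degree_eq_natDegree h0] at ha
    have h1 : a.natDegree < N := by exact_mod_cast ha
    have h2 : a.natDegree + j < N + J := by omega
    exact_mod_cast h2

private theorem fr (d : ℕ) : Module.finrank K (degreeLT K d) = d := by
  rw [LinearEquiv.finrank_eq (degreeLTEquiv K d), Module.finrank_fin_fun]

private instance fd (d : ℕ) : FiniteDimensional K (degreeLT K d) :=
  FiniteDimensional.of_injective (degreeLTEquiv K d).toLinearMap (degreeLTEquiv K d).injective

private theorem sig_deg {F : K[X]} (hF : 1 ≤ F.natDegree) {l k m d J : ℕ} (ε : K) (hk : k < l)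
    {r s : Fin J → K[X]} (hr : ∀ j, r j ∈ degreeLT K d) (hs : ∀ j, s j ∈ degreeLT K d) :
    sig F l k m J ε r s ∈ degreeLT K (d + k * (F.natDegree - 1) + J) := by
  unfold sig
  refine Submodule.sum_mem _ fun j _ => mulX j.2 (Submodule.add_mem _ ?_ ?_)
  · exact UU_deg hF hk.le (hr j)
  · rw [← smul_eq_C_mul]
    exact Submodule.smul_mem _ _ (UU_deg hF (by omega) (hs j))

private def sigL {F : K[X]} (hF : F ≠ 0) (l k m J d : ℕ) (ε : K) (hk : k < l) :
    ((Fin J → degreeLT K d) × (Fin J → degreeLT K d)) →ₗ[K] K[X] where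
  toFun v := sig F l k m J ε (fun j => (v.1 j : K[X])) (fun j => (v.2 j : K[X]))
  map_add' v w := by
    unfold sig
    rw [← Finset.sum_add_distrib]
    refine Finset.sum_congr rfl fun j _ => ?_
    simp only [Prod.fst_add, Prod.snd_add, Pi.add_apply, Submodule.coe_add]
    rw [UU_add hF hk.le, UU_add hF (show k ≤ l + m by omega)]
    ring
  map_smul' c v := by
    unfold sig
    rw [RingHom.id_apply, Finset.smul_sum]
    refine Finset.sum_congr rfl fun j _ => ?_
    simp only [Prod.smul_fst, Prod.smul_snd, Pi.smul_apply, Submodule.coe_smul]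
    rw [UU_smul hF hk.le, UU_smul hF (show k ≤ l + m by omega)]
    simp only [smul_eq_C_mul]
    ring

theorem lin {F : K[X]} (hF : 1 ≤ F.natDegree) (l J m d : ℕ) (ε : K)
    (h : ∑ k ∈ Finset.range l, (d + k * (F.natDegree - 1) + J) < 2 * J * d) :
    ∃ r s : Fin J → K[X], (∀ j, r j ∈ degreeLT K d) ∧ (∀ j, s j ∈ degreeLT K d) ∧
      (∃ j, r j ≠ 0 ∨ s j ≠ 0) ∧ ∀ k < l, sig F l k m J ε r s = 0 := by
  have hF0 : F ≠ 0 := by
    rintro rfl
    rw [natDegree_zero] at hF
    omega
  let f : ((Fin J → degreeLT K d) × (Fin J → degreeLT K d)) →ₗ[K]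
      ((k : Fin l) → degreeLT K (d + (k : ℕ) * (F.natDegree - 1) + J)) :=
    LinearMap.pi fun k => LinearMap.codRestrict _ (sigL hF0 l k m J d ε k.2)
      fun v => sig_deg hF ε k.2 (fun j => (v.1 j).2) (fun j => (v.2 j).2)
  have hlt : Module.finrank K ((k : Fin l) → degreeLT K (d + (k : ℕ) * (F.natDegree - 1) + J)) <
      Module.finrank K ((Fin J → degreeLT K d) × (Fin J → degreeLT K d)) := by
    rw [Module.finrank_prod, Module.finrank_pi_fintype, Module.finrank_pi_fintype]
    simp only [fr]
    rw [Finset.sum_const, Finset.card_univ, Fintype.card_fin, smul_eq_mul,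
      Fin.sum_univ_eq_sum_range (fun k => d + k * (F.natDegree - 1) + J) l]
    calc _ < 2 * J * d := h
      _ = _ := by ring
  have hker := LinearMap.ker_ne_bot_of_finrank_lt (f := f) hlt
  obtain ⟨v, hv, hv0⟩ := (Submodule.ne_bot_iff _).1 hker
  rw [LinearMap.mem_ker] at hv
  refine ⟨fun j => (v.1 j : K[X]), fun j => (v.2 j : K[X]), fun j => (v.1 j).2,
    fun j => (v.2 j).2, ?_, fun k hk => ?_⟩
  · by_contra hcon
    push Not at hcon
    refine hv0 (Prod.ext (funext fun j => Subtype.ext ?_) (funext fun j => Subtype.ext ?_))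
    · exact (hcon j).1
    · exact (hcon j).2
  · have h1 := congrFun hv ⟨k, hk⟩
    exact congrArg Subtype.val h1

end Pool.Agent.Stv
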