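import Pool.Agent.Stv.Defs

/-!
# Package Stv-Nonv: the auxiliary polynomial is not zero

Complete proof. `q = 2 m + 1` is the number of the elements. Suppose `Phi = 0`; cancel `F^l ≠ 0`. Let `j₀`
be the least `j` with `r_j ≠ 0` or `s_j ≠ 0`. All the terms are divisible by `X^(q j₀)`; cancel it:
`X^q` divides `r + s F^m` (`r = r_(j₀)`, `s = s_(j₀)`), so it divides
`(r + s F^m)(r - s F^m) F = r² F - s² F^q` (`F^(2m+1) = F^q`), and it divides `F^q - C (F(0))`
(`FiniteField.expand_card`: `F^q = expand K q F`, whose coefficients at `0 < i < q` vanish and whose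
constant coefficient is `F(0)`). So `X^q` divides `r² F - C (F(0)) s²`, of degree
`≤ max (2 (d-1) + n) (2 (d-1)) < q`: `r² F = C (F(0)) s²`. As `F` is squarefree of positive degree
and `F(0) ≠ 0` this gives `r = s = 0`: if `r ≠ 0` an irreducible factor of `F` has odd multiplicity on the
left and even multiplicity on the right (`emultiplicity`), or: `F ∣ s²`, so `F ∣ s` (squarefree:
`Squarefree.dvd_of_dvd_pow`-like), `s = F t`, `r² = c F t²`, so `F ∣ r`, and so on: infinite descent on
the degree.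
-/

set_option autoImplicit false

noncomputable section

namespace Pool.Agent.Stv

open Polynomial
open scoped Classical

variable {K : Type} [Field K] [Finite K]

theorem sq_eq {F r s : K[X]} (hF : Squarefree F) (hn : 1 ≤ F.natDegree) {c : K} (hc : c ≠ 0)
    (h : r ^ 2 * F = C c * s ^ 2) : r = 0 ∧ s = 0 := by
  have hF0 : F ≠ 0 := hF.ne_zero
  have hCc : (C c : K[X]) ≠ 0 := C_ne_zero.2 hc
  have hu : ¬ IsUnit F := by
    intro hu
    have := natDegree_eq_zero_of_isUnit hu
    omega
  by_cases hr : r = 0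
  · refine ⟨hr, ?_⟩
    rw [hr] at h
    have h1 : C c * s ^ 2 = 0 := by rw [← h]; ring
    rcases mul_eq_zero.1 h1 with h2 | h2
    · exact absurd h2 hCc
    · exact (pow_eq_zero_iff two_ne_zero).1 h2
  · exfalso
    have hs : s ≠ 0 := by
      rintro rfl
      have h1 : r ^ 2 * F ≠ 0 := mul_ne_zero (pow_ne_zero _ hr) hF0
      apply h1
      rw [h]
      ring
    obtain ⟨p, hp, hpF⟩ := WfDvdMonoid.exists_irreducible_factor hu hF0
    have hpp : Prime p := hp.prime
    have fr : FiniteMultiplicity p r := FiniteMultiplicity.of_prime_left hpp hr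
    have fs : FiniteMultiplicity p s := FiniteMultiplicity.of_prime_left hpp hs
    have fF : FiniteMultiplicity p F := FiniteMultiplicity.of_prime_left hpp hF0
    have e1 : multiplicity p (r ^ 2 * F) = 2 * multiplicity p r + multiplicity p F := by
      rw [multiplicity_mul hpp (FiniteMultiplicity.of_prime_left hpp
        (mul_ne_zero (pow_ne_zero _ hr) hF0)), FiniteMultiplicity.multiplicity_pow hpp fr]
    have e2 : multiplicity p (C c * s ^ 2) = 2 * multiplicity p s := by
      rw [multiplicity_mul hpp (FiniteMultiplicity.of_prime_left hpp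
        (mul_ne_zero hCc (pow_ne_zero _ hs))), FiniteMultiplicity.multiplicity_pow hpp fs,
        multiplicity_of_isUnit_right hp.not_isUnit (isUnit_C.2 (isUnit_iff_ne_zero.2 hc)),
        zero_add]
    have e3 : multiplicity p F ≤ 1 := by
      rcases (squarefree_iff_emultiplicity_le_one F).1 hF p with h1 | h1
      · rw [fF.emultiplicity_eq_multiplicity] at h1
        exact_mod_cast h1
      · exact absurd h1 hp.not_isUnit
    have e4 : 1 ≤ multiplicity p F := by
      have h1 := (fF.pow_dvd_iff_le_multiplicity (k := 1)).1 (by simpa using hpF)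
      exact h1
    have e5 : 2 * multiplicity p r + multiplicity p F = 2 * multiplicity p s := by
      rw [← e1, ← e2, h]
    omega

theorem nonv {F : K[X]} (hF : Squarefree F) (hn : 1 ≤ F.natDegree) (h₀ : F.eval 0 ≠ 0)
    {l J m d : ℕ} (hq : Nat.card K = 2 * m + 1) (hd : 2 * d + F.natDegree ≤ Nat.card K)
    {r s : Fin J → K[X]} (hr : ∀ j, r j ∈ degreeLT K d) (hs : ∀ j, s j ∈ degreeLT K d)
    (h : ∃ j, r j ≠ 0 ∨ s j ≠ 0) : Phi F (Nat.card K) l J m r s ≠ 0 := by
  intro hP
  have hF0 : F ≠ 0 := hF.ne_zero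
  have hq0 : 0 < Nat.card K := by omega
  set q := Nat.card K with hqd
  -- the sum vanishes
  have hS : ∑ j : Fin J, (r j + s j * F ^ m) * X ^ (q * (j : ℕ)) = 0 := by
    unfold Phi at hP
    rcases mul_eq_zero.1 hP with h1 | h1
    · exact absurd h1 (pow_ne_zero _ hF0)
    · exact h1
  -- the least index
  obtain ⟨i₀, hi₀, hmin⟩ : ∃ i : Fin J, (r i ≠ 0 ∨ s i ≠ 0) ∧
      ∀ j : Fin J, (j : ℕ) < (i : ℕ) → r j = 0 ∧ s j = 0 := by
    have hex : ∃ n : ℕ, ∃ hn : n < J, r ⟨n, hn⟩ ≠ 0 ∨ s ⟨n, hn⟩ ≠ 0 := by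
      obtain ⟨j, hj⟩ := h
      exact ⟨j, j.2, hj⟩
    obtain ⟨hn1, hn2⟩ := Nat.find_spec hex
    refine ⟨⟨Nat.find hex, hn1⟩, hn2, ?_⟩
    intro j hj
    have h1 := Nat.find_min hex hj
    by_contra h2
    apply h1
    refine ⟨j.2, ?_⟩
    by_contra h3
    apply h2
    push Not at h3
    exact h3
  have hd1 : X ^ (q * (i₀ : ℕ)) * X ^ q ∣ (r i₀ + s i₀ * F ^ m) * X ^ (q * (i₀ : ℕ)) := by
    have h1 : (r i₀ + s i₀ * F ^ m) * X ^ (q * (i₀ : ℕ)) =
        - ∑ j ∈ Finset.univ.erase i₀, (r j + s j * F ^ m) * X ^ (q * (j : ℕ)) := by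
      have h2 := Finset.add_sum_erase Finset.univ
        (fun j : Fin J => (r j + s j * F ^ m) * X ^ (q * (j : ℕ))) (Finset.mem_univ i₀)
      rw [hS] at h2
      exact eq_neg_of_add_eq_zero_left h2
    rw [h1]
    refine (dvd_neg).2 (Finset.dvd_sum ?_)
    intro j hj
    rcases lt_trichotomy (j : ℕ) (i₀ : ℕ) with hlt | heq | hgt
    · obtain ⟨h2, h3⟩ := hmin j hlt
      rw [h2, h3]
      simp
    · exact absurd (Fin.ext heq) (Finset.ne_of_mem_erase hj)
    · rw [← pow_add]
      refine Dvd.dvd.mul_left (pow_dvd_pow X ?_) _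
      calc q * (i₀ : ℕ) + q = q * ((i₀ : ℕ) + 1) := by ring
        _ ≤ q * (j : ℕ) := Nat.mul_le_mul_left _ hgt
  have hd2 : X ^ q ∣ r i₀ + s i₀ * F ^ m := by
    rw [mul_comm (r i₀ + s i₀ * F ^ m)] at hd1
    exact (mul_dvd_mul_iff_left (pow_ne_zero _ X_ne_zero)).1 hd1
  have hFq : X ^ q ∣ F ^ q - C (F.eval 0) := by
    have hft : Fintype K := Fintype.ofFinite K
    have h1 : expand K q F = F ^ q := by
      have h2 := FiniteField.expand_card F
      rw [← Nat.card_eq_fintype_card] at h2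
      exact h2
    rw [← h1]
    have h3 : F = X * divX F + C (F.coeff 0) := (X_mul_divX_add F).symm
    have h4 : expand K q F = X ^ q * expand K q (divX F) + C (F.coeff 0) := by
      conv_lhs => rw [h3]
      rw [map_add, map_mul, expand_X, expand_C]
    rw [h4, ← coeff_zero_eq_eval_zero, add_sub_cancel_right]
    exact dvd_mul_right _ _
  have hd3 : X ^ q ∣ (r i₀) ^ 2 * F - C (F.eval 0) * (s i₀) ^ 2 := by
    have h1 : (r i₀) ^ 2 * F - C (F.eval 0) * (s i₀) ^ 2 =
        (r i₀ + s i₀ * F ^ m) * ((r i₀ - s i₀ * F ^ m) * F) +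
          (F ^ q - C (F.eval 0)) * (s i₀) ^ 2 := by
      rw [hq]
      ring
    rw [h1]
    exact dvd_add (hd2.mul_right _) (hFq.mul_right _)
  have hdeg : ((r i₀) ^ 2 * F - C (F.eval 0) * (s i₀) ^ 2).degree < (q : WithBot ℕ) := by
    have hr0 := hr i₀
    have hs0 := hs i₀
    rw [mem_degreeLT] at hr0 hs0
    have key : ∀ t : K[X], t.degree < (d : WithBot ℕ) → ∀ G : K[X], G.natDegree ≤ F.natDegree →
        (t ^ 2 * G).degree < (q : WithBot ℕ) := by
      intro t ht G hG
      by_cases h0 : t ^ 2 * G = 0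
      · rw [h0, degree_zero]
        exact WithBot.bot_lt_coe _
      · have ht0 : t ≠ 0 := by
          rintro rfl
          apply h0
          simp
        have h1 : t.natDegree < d := (natDegree_lt_iff_degree_lt ht0).2 ht
        rw [← natDegree_lt_iff_degree_lt h0]
        have h2 : (t ^ 2 * G).natDegree ≤ 2 * t.natDegree + G.natDegree :=
          natDegree_mul_le.trans (Nat.add_le_add_right natDegree_pow_le _)
        omega
    refine (degree_sub_le _ _).trans_lt (max_lt (key _ hr0 F le_rfl) ?_)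
    rw [mul_comm]
    refine key _ hs0 _ ?_
    rw [natDegree_C]
    exact Nat.zero_le _
  have hz : (r i₀) ^ 2 * F - C (F.eval 0) * (s i₀) ^ 2 = 0 := by
    refine eq_zero_of_dvd_of_degree_lt hd3 ?_
    rw [degree_X_pow]
    exact hdeg
  obtain ⟨h1, h2⟩ := sq_eq hF hn h₀ (sub_eq_zero.1 hz)
  rcases hi₀ with h3 | h3
  · exact h3 h1
  · exact h3 h2

end Pool.Agent.Stv
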