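import Pool.Agent.Stv.Van
import Pool.Agent.Stv.Lin
import Pool.Agent.Stv.Nonv

/-!
# Package Stv-ThmA: the bound with parameters

Complete proof. Take `r`, `s` from `lin`, `Phi ≠ 0` by `nonv`; by `vanish` the product of the coprime
`(X - C x)^l` over the `x` in the set divides `Phi` (`Finset.prod_dvd_of_coprime`,
`pairwise_coprime_X_sub_C`), so `l * (number) ≤ deg Phi ≤ l n + (d + n m) + q (J - 1)`
(`J ≥ 1` since `r` or `s` is not zero).
-/

set_option autoImplicit false

noncomputable section

namespace Pool.Agent.Stv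

open Polynomial
open scoped Classical

variable {K : Type} [Field K] [Finite K]

omit [Finite K] in
private theorem natDegree_phi {F : K[X]} {q l J m d : ℕ} {r s : Fin J → K[X]}
    (hr : ∀ j, r j ∈ degreeLT K d) (hs : ∀ j, s j ∈ degreeLT K d) :
    (Phi F q l J m r s).natDegree ≤ l * F.natDegree + (d + F.natDegree * m + q * (J - 1)) := by
  have key : ∀ {p : K[X]}, p ∈ degreeLT K d → p.natDegree ≤ d := fun {p} hp =>
    natDegree_le_of_degree_le (le_of_lt (mem_degreeLT.1 hp))
  unfold Phi
  refine natDegree_mul_le.trans (Nat.add_le_add natDegree_pow_le ?_)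
  refine natDegree_sum_le_of_forall_le _ _ fun j _ => ?_
  refine natDegree_mul_le.trans (Nat.add_le_add ?_ ?_)
  · refine (natDegree_add_le _ _).trans (max_le ((key (hr j)).trans (Nat.le_add_right _ _)) ?_)
    refine natDegree_mul_le.trans (Nat.add_le_add (key (hs j)) ?_)
    rw [mul_comm]
    exact natDegree_pow_le
  · rw [natDegree_X_pow]
    exact Nat.mul_le_mul_left q (by have := j.2; omega)

theorem thmA {F : K[X]} (hF : Squarefree F) (hn : 1 ≤ F.natDegree) (h₀ : F.eval 0 ≠ 0)
    {l J m d : ℕ} (ε : K) (hq : Nat.card K = 2 * m + 1)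
    (hd : 2 * d + F.natDegree ≤ Nat.card K) (hl : l ≤ Nat.card K)
    (h : ∑ k ∈ Finset.range l, (d + k * (F.natDegree - 1) + J) < 2 * J * d) :
    l * Nat.card {x : K // F.eval x ^ m = ε} ≤
      l * F.natDegree + d + F.natDegree * m + Nat.card K * (J - 1) := by
  obtain ⟨r, s, hr, hs, hne, hsig⟩ := lin hn l J m d ε h
  have hF0 : F ≠ 0 := by rintro rfl; simp at hn
  have hPhi := nonv (l := l) hF hn h₀ hq hd hr hs hne
  have hfin : ({x : K | F.eval x ^ m = ε}).Finite := Set.toFinite _
  have hcard : Nat.card {x : K // F.eval x ^ m = ε} = hfin.toFinset.card := by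
    rw [← Nat.card_eq_card_finite_toFinset hfin]; rfl
  have hdvd : ∏ x ∈ hfin.toFinset, (X - C x) ^ l ∣ Phi F (Nat.card K) l J m r s := by
    refine Finset.prod_dvd_of_coprime ?_ ?_
    · intro x _ y _ hxy
      exact (pairwise_coprime_X_sub_C Function.injective_id hxy).pow
    · intro x hx
      have hx' : F.eval x ^ m = ε := by simpa using hx
      exact vanish hF0 hl hsig hx'
  have hdeg := natDegree_le_of_dvd hdvd hPhi
  have hprod : (∏ x ∈ hfin.toFinset, (X - C x) ^ l).natDegree = l * hfin.toFinset.card := by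
    rw [natDegree_prod_of_monic _ _ fun x _ => (monic_X_sub_C x).pow l]
    simp [mul_comm]
  rw [hprod] at hdeg
  rw [hcard]
  have := natDegree_phi (F := F) (q := Nat.card K) (l := l) (m := m) hr hs
  omega

end Pool.Agent.Stv
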