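import Pool.Agent.Stv.Hasse

/-!
# Package Stv-Van: vanishing of the auxiliary polynomial

Complete proof. By `mult` it is enough that `D_k Phi (x) = 0` for `k < l`. `Phi` is the sum over `j` of
`(F^l r_j + F^(l+m) s_j) X^(q j)`; by `hasse_mul_X_pow` (`k < l ≤ q`) and `UU_mul` `D_k` of it is
`(F^(l-k) UU F l k r_j + F^(l+m-k) UU F (l+m) k s_j) X^(q j)`. At `x`: `x^(q j) = x^j`
(`FiniteField.pow_card`), `F(x)^(l+m-k) = F(x)^(l-k) F(x)^m = F(x)^(l-k) ε`. So the value is
`F(x)^(l-k) (sig F l k m J ε r s).eval x = 0`.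
-/

set_option autoImplicit false

noncomputable section

namespace Pool.Agent.Stv

open Polynomial
open scoped Classical

variable {K : Type} [Field K] [Finite K]

theorem vanish {F : K[X]} (hF : F ≠ 0) {l J m : ℕ} {ε : K} (hl : l ≤ Nat.card K)
    {r s : Fin J → K[X]} (h : ∀ k < l, sig F l k m J ε r s = 0) {x : K}
    (hx : F.eval x ^ m = ε) : (X - C x) ^ l ∣ Phi F (Nat.card K) l J m r s := by
  refine mult fun k hk => ?_
  have hq : k < Nat.card K := lt_of_lt_of_le hk hl
  haveI := Fintype.ofFinite K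
  have hpow : ∀ j : ℕ, x ^ (Nat.card K * j) = x ^ j := by
    intro j
    rw [pow_mul, Nat.card_eq_fintype_card, FiniteField.pow_card]
  have h1 : Phi F (Nat.card K) l J m r s =
      ∑ j : Fin J, (F ^ l * r j + F ^ (l + m) * s j) * X ^ (Nat.card K * (j : ℕ)) := by
    unfold Phi
    rw [Finset.mul_sum]
    refine Finset.sum_congr rfl fun j _ => ?_
    rw [pow_add]
    ring
  have h2 : hasseDeriv k (Phi F (Nat.card K) l J m r s) =
      ∑ j : Fin J, (F ^ (l - k) * UU F l k (r j) + F ^ (l + m - k) * UU F (l + m) k (s j)) *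
        X ^ (Nat.card K * (j : ℕ)) := by
    rw [h1, map_sum]
    refine Finset.sum_congr rfl fun j _ => ?_
    rw [hasse_mul_X_pow hq, map_add, UU_mul hF hk.le, UU_mul hF (by omega)]
  rw [h2, eval_finset_sum]
  have h3 : ∀ j : Fin J, eval x ((F ^ (l - k) * UU F l k (r j) +
      F ^ (l + m - k) * UU F (l + m) k (s j)) * X ^ (Nat.card K * (j : ℕ))) =
      eval x F ^ (l - k) * eval x ((UU F l k (r j) + C ε * UU F (l + m) k (s j)) *
        X ^ (j : ℕ)) := by
    intro j
    have h4 : l + m - k = (l - k) + m := by omega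
    simp only [eval_mul, eval_add, eval_pow, eval_X, eval_C, hpow, h4, pow_add, hx]
    ring
  rw [Finset.sum_congr rfl fun j _ => h3 j, ← Finset.mul_sum, ← eval_finset_sum]
  have h5 := h k hk
  unfold sig at h5
  rw [h5, eval_zero, mul_zero]

end Pool.Agent.Stv
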